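import Pool.Agent.MP_09973c_nt.H56.PF

/-!
Existence of real places with residue field `k`.
-/

set_option autoImplicit false

namespace Pool.Agent.MP_09973c_nt.H56

open Polynomial Finset IntermediateField Pool.Agent.MP_09973c_nt.H31 Pool.Agent.MP_09973c_nt.H58

section Ex

variable {k Ω Γ : Type} [Field k] [Field Ω] [Algebra k Ω] [LinearOrderedCommGroupWithZero Γ]
  {v : Valuation Ω Γ} (hv : ∀ c : k, v (algebraMap k Ω c) ≤ 1)

include hv

theorem v_const {c : k} (hc : c ≠ 0) : v (algebraMap k Ω c) = 1 :=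
  val_unit v (hv c) (hv c⁻¹) (by rw [← map_mul, mul_inv_cancel₀ hc, map_one])

theorem v_aeval {x : Ω} (hx : v x ≤ 1) (f : k[X]) : v (aeval x f) ≤ 1 := by
  rw [aeval_eq_sum_range]
  refine v.map_sum_le fun i _ => ?_
  rw [Algebra.smul_def, map_mul, map_pow]
  exact mul_le_one' (hv _) (pow_le_one' hx i)

theorem v_poly {τ : Ω} (hτ : v τ < 1) {f : k[X]} (hf : f ≠ 0) : ∃ (n : ℕ) (u : Ω) (c : k),
    c ≠ 0 ∧ v (u - algebraMap k Ω c) < 1 ∧ aeval τ f = τ ^ n * u := by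
  obtain ⟨g, hg, hd⟩ := exists_eq_pow_rootMultiplicity_mul_and_not_dvd f hf 0
  refine ⟨f.rootMultiplicity 0, aeval τ g, g.coeff 0, fun h0 => hd ?_, ?_, ?_⟩
  · rw [map_zero, sub_zero, X_dvd_iff, h0]
  · have : aeval τ g - algebraMap k Ω (g.coeff 0) = τ * aeval τ g.divX := by
      have := congrArg (aeval τ) (X_mul_divX_add g)
      rw [map_add, map_mul, aeval_X, aeval_C] at this
      rw [← this, add_sub_cancel_right]
    rw [this, map_mul]
    exact (mul_le_of_le_one_right' (v_aeval hv hτ.le _)).trans_lt hτ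
  · conv_lhs => rw [hg]
    simp

theorem v_close {u : Ω} {c : k} (hc : c ≠ 0) (h : v (u - algebraMap k Ω c) < 1) : v u = 1 :=
  val_eq_one_of_close v (v_const hv hc) (by rwa [v.map_sub_swap])

theorem v_rat {τ : Ω} (hτ : v τ < 1) {x : Ω} (hx : x ∈ adjoin k {τ}) (h0 : x ≠ 0) :
    ∃ (n : ℤ) (u : Ω) (c : k), c ≠ 0 ∧ v (u - algebraMap k Ω c) < 1 ∧ x = τ ^ n * u := by
  obtain ⟨f, g, hf, hg, rfl⟩ := exists_frac hx h0
  obtain ⟨n, u, c, hc, hu, he⟩ := v_poly hv hτ hf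
  obtain ⟨n', u', c', hc', hu', he'⟩ := v_poly hv hτ hg
  have h1 := v_close hv hc' hu'
  have h2 : u' ≠ 0 := fun h => by simp [h] at h1
  have h3 : algebraMap k Ω c' ≠ 0 := by simpa using hc'
  rw [he, he'] at h0
  refine ⟨n - n', u / u', c / c', div_ne_zero hc hc', ?_, ?_⟩
  · have : u / u' - algebraMap k Ω (c / c') = ((u - algebraMap k Ω c) * algebraMap k Ω c' -
        algebraMap k Ω c * (u' - algebraMap k Ω c')) / (u' * algebraMap k Ω c') := by
      rw [map_div₀]; field_simp; ring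
    rw [this, map_div₀, map_mul, h1, v_const hv hc', mul_one, div_one]
    refine v.map_sub_lt ?_ ?_ <;> rw [map_mul]
    · exact (mul_le_of_le_one_right' (hv _)).trans_lt hu
    · exact (mul_le_of_le_one_left' (hv _)).trans_lt hu'
  · rw [he, he', mul_div_mul_comm]
    by_cases hτ0 : τ = 0
    · obtain ⟨a1, a2⟩ := div_ne_zero_iff.1 h0
      have b1 : n = 0 := by by_contra h; simp [hτ0, h] at a1
      have b2 : n' = 0 := by by_contra h; simp [hτ0, h] at a2
      simp [b1, b2]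
    · rw [zpow_sub₀ hτ0, zpow_natCast, zpow_natCast]

theorem v_res {τ : Ω} (hτ : v τ < 1) {x : Ω} (hx : x ∈ adjoin k {τ}) (h1 : v x ≤ 1) :
    ∃ c : k, v (x - algebraMap k Ω c) < 1 := by
  by_cases h2 : v x < 1
  · exact ⟨0, by simpa using h2⟩
  have h3 : v x = 1 := le_antisymm h1 (not_lt.1 h2)
  have h0 : x ≠ 0 := fun h => by simp [h] at h3
  obtain ⟨n, u, c, hc, hu, rfl⟩ := v_rat hv hτ hx h0
  rw [map_mul, v_close hv hc hu, mul_one, map_zpow₀] at h3
  exact ⟨c, by simpa [(zpow_eq_one_iff_right₀ zero_le hτ.ne).1 h3] using hu⟩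

theorem v_res_alg [IsAlgClosed k] {τ : Ω} (hτ : v τ < 1) {x : Ω}
    (hx : IsAlgebraic (adjoin k {τ}) x) (h1 : v x ≤ 1) :
    ∃ c : k, v (x - algebraMap k Ω c) < 1 := by
  obtain ⟨f, hf, hfx⟩ := hx
  obtain ⟨i, hi, hmax⟩ := exists_max_coeff v (M := (adjoin k {τ}).toSubfield) f hf
  have hi' : (f.coeff i : Ω) ≠ 0 := fun h => hi (Subtype.ext h)
  have hres : ∀ j, ∃ c : k, v (f.coeff j / f.coeff i - algebraMap k Ω c) < 1 := fun j =>
    v_res hv hτ (div_mem (f.coeff j).2 (f.coeff i).2) (by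
      rw [map_div₀]; exact div_le_one_of_le₀ (hmax j) zero_le)
  choose c hc using hres
  have hci : c i ≠ 0 := fun h => by simpa [h, hi'] using hc i
  have hi2 : i < f.natDegree + 1 := Nat.lt_succ_of_le (le_natDegree_of_ne_zero hi)
  set f₀ : k[X] := ∑ j ∈ range (f.natDegree + 1), monomial j (c j) with hf₀
  have h0 : f₀ ≠ 0 := fun h => hci (by
    have := congrArg (coeff · i) h
    simpa [hf₀, coeff_monomial, hi2] using this)
  have h2 : v (aeval x f₀) < 1 := by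
    have : aeval x f₀ = ∑ j ∈ range (f.natDegree + 1),
        -((f.coeff j / f.coeff i - algebraMap k Ω (c j)) * x ^ j) := by
      rw [aeval_eq_sum_range] at hfx
      simp only [sub_mul, neg_sub, sum_sub_distrib, div_mul_eq_mul_div, ← sum_div]
      rw [show ∑ j ∈ range (f.natDegree + 1), (f.coeff j : Ω) * x ^ j = 0 from hfx]
      simp [hf₀, aeval_monomial]
    rw [this]
    refine v.map_sum_lt one_ne_zero fun j _ => ?_
    rw [v.map_neg, map_mul, map_pow]
    exact (mul_le_of_le_one_right' (pow_le_one' h1 j)).trans_lt (hc j)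
  by_contra hcon
  push Not at hcon
  rw [(IsAlgClosed.splits f₀).eq_prod_roots, map_mul, aeval_C, map_mul,
    v_const hv (leadingCoeff_ne_zero.2 h0), one_mul, map_multiset_prod, map_multiset_prod] at h2
  refine absurd h2 (not_lt.2 (Multiset.one_le_prod_of_one_le fun y hy => ?_))
  simp only [Multiset.map_map, Multiset.mem_map, Function.comp_apply] at hy
  obtain ⟨w, -, rfl⟩ := hy
  simpa using hcon w

theorem v_pow {τ : Ω} (hτ : v τ < 1) {x : Ω} (hx : IsAlgebraic (adjoin k {τ}) x) (h0 : x ≠ 0) :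
    ∃ (e : ℕ) (m : ℤ), 0 < e ∧ v x ^ e = v τ ^ m := by
  have hK : ∀ y : adjoin k {τ}, (y : Ω) ≠ 0 → ∃ n : ℤ, v y = v τ ^ n := fun y hy => by
    obtain ⟨n, u, c, hc, hu, he⟩ := v_rat hv hτ y.2 hy
    exact ⟨n, by rw [he, map_mul, v_close hv hc hu, mul_one, map_zpow₀]⟩
  obtain ⟨f, hf, hfx⟩ := hx
  by_contra hcon
  have key : ∀ i j, i < j → f.coeff i • x ^ i ≠ 0 → f.coeff j • x ^ j ≠ 0 →
      v (f.coeff i • x ^ i) ≠ v (f.coeff j • x ^ j) := fun i j hij h1 h2 h3 => by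
    rw [IntermediateField.smul_def, smul_eq_mul] at h1 h2 h3
    rw [IntermediateField.smul_def, smul_eq_mul, map_mul, map_mul, map_pow, map_pow] at h3
    have h5 := left_ne_zero_of_mul h2
    obtain ⟨n, hn⟩ := hK (f.coeff i / f.coeff j) (div_ne_zero (left_ne_zero_of_mul h1) h5)
    refine hcon ⟨j - i, n, by omega, ?_⟩
    rw [← hn, IntermediateField.coe_div, map_div₀, eq_div_iff (v.ne_zero_iff.2 h5)]
    refine mul_right_cancel₀ (pow_ne_zero i (v.ne_zero_iff.2 h0)) ?_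
    rw [mul_right_comm, ← pow_add, Nat.sub_add_cancel hij.le, mul_comm]
    exact h3.symm
  rw [aeval_eq_sum_range] at hfx
  rcases val_sum_distinct v (range (f.natDegree + 1)) (fun i => f.coeff i • x ^ i)
    (fun i _ j _ h1 h2 h3 => by
      rcases lt_trichotomy i j with h | h | h
      · exact absurd h3 (key i j h h1 h2)
      · exact h
      · exact absurd h3.symm (key j i h h2 h1)) with h | ⟨i, -, h1, h2⟩
  · have := h _ (self_mem_range_succ _)
    rw [IntermediateField.smul_def, smul_eq_mul] at this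
    exact leadingCoeff_ne_zero.2 hf
      (Subtype.ext ((mul_eq_zero.1 this).resolve_right (pow_ne_zero _ h0)))
  · rw [hfx, map_zero] at h2
    exact h1 (v.zero_iff.1 h2.symm)

omit hv in
theorem exists_real {t : Γ} (ht0 : 0 < t) (ht : t < 1)
    (h : ∀ x : Ω, x ≠ 0 → ∃ (e : ℕ) (m : ℤ), 0 < e ∧ v x ^ e = t ^ m) :
    ∃ ν : Valuation Ω NNReal, (∀ x y, ν x ≤ ν y ↔ v x ≤ v y) ∧
      ∀ x, v x = t → (ν x : ℝ) = Real.exp (-1) := by
  classical
  let Q : Γ → ℝ → Prop := fun γ q => ∃ (e : ℕ) (m : ℤ), 0 < e ∧ γ ^ e = t ^ m ∧ q = m / e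
  have Qle : ∀ γ q γ' q', Q γ q → Q γ' q' → (γ ≤ γ' ↔ q' ≤ q) := by
    rintro γ _ γ' _ ⟨e, m, he, hm, rfl⟩ ⟨e', m', he', hm', rfl⟩
    rw [← pow_le_pow_iff_left₀ zero_le zero_le (Nat.mul_pos he he').ne', pow_mul, hm, mul_comm,
      pow_mul, hm', ← zpow_natCast, ← zpow_natCast, ← zpow_mul, ← zpow_mul,
      zpow_le_zpow_iff_right_of_lt_one₀ ht0 ht, div_le_div_iff₀ (by positivity) (by positivity)]
    exact_mod_cast Iff.rfl
  have Qeq : ∀ γ q q', Q γ q → Q γ q' → q = q' := fun γ q q' h1 h2 =>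
    le_antisymm ((Qle _ _ _ _ h2 h1).1 le_rfl) ((Qle _ _ _ _ h1 h2).1 le_rfl)
  have Qmul : ∀ γ q γ' q', Q γ q → Q γ' q' → Q (γ * γ') (q + q') := by
    rintro γ _ γ' _ ⟨e, m, he, hm, rfl⟩ ⟨e', m', he', hm', rfl⟩
    refine ⟨e * e', m * e' + m' * e, Nat.mul_pos he he', ?_, ?_⟩
    · rw [mul_pow, pow_mul, hm, mul_comm e, pow_mul, hm', zpow_add₀ ht0.ne', zpow_mul, zpow_mul,
        zpow_natCast, zpow_natCast]
    · push_cast; field_simp
  have hQ : ∀ x : Ω, ∃ q, x ≠ 0 → Q (v x) q := fun x => by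
    by_cases hx : x = 0
    · exact ⟨0, fun h => absurd hx h⟩
    · obtain ⟨e, m, he, hm⟩ := h x hx
      exact ⟨_, fun _ => ⟨e, m, he, hm, rfl⟩⟩
  choose o ho using hQ
  let ν : Ω → NNReal := fun x => if x = 0 then 0 else ⟨Real.exp (-o x), (Real.exp_pos _).le⟩
  have hν : ∀ x, x ≠ 0 → (ν x : ℝ) = Real.exp (-o x) := fun x hx => by
    simp only [ν, if_neg hx]; rfl
  have hν0 : ν 0 = 0 := by simp [ν]
  have hle : ∀ x y, ν x ≤ ν y ↔ v x ≤ v y := fun x y => by
    by_cases hx : x = 0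
    · simp [hx, hν0]
    by_cases hy : y = 0
    · rw [hy, hν0, map_zero, ← NNReal.coe_le_coe, hν x hx, nonpos_iff_eq_zero, v.zero_iff]
      exact iff_of_false (not_le.2 (Real.exp_pos _)) hx
    rw [← NNReal.coe_le_coe, hν x hx, hν y hy, Real.exp_le_exp, neg_le_neg_iff,
      Qle _ _ _ _ (ho x hx) (ho y hy)]
  refine ⟨⟨⟨⟨ν, hν0⟩, ?_, fun x y => ?_⟩, fun x y => ?_⟩, hle, fun x hx => ?_⟩
  · have := Qeq _ _ _ (ho 1 one_ne_zero) ⟨1, 0, one_pos, by simp, rfl⟩
    refine NNReal.eq ?_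
    simp only
    rw [hν 1 one_ne_zero, this]; simp
  · simp only
    by_cases hx : x = 0
    · simp [hx, hν0]
    by_cases hy : y = 0
    · simp [hy, hν0]
    have := Qeq _ _ _ (ho _ (mul_ne_zero hx hy)) (map_mul v x y ▸ Qmul _ _ _ _ (ho x hx) (ho y hy))
    refine NNReal.eq ?_
    rw [NNReal.coe_mul, hν _ (mul_ne_zero hx hy), hν x hx, hν y hy, this, neg_add, Real.exp_add]
  · exact le_max_iff.2 ((le_max_iff.1 (v.map_add x y)).imp (hle _ _).2 (hle _ _).2)
  · have h0 : x ≠ 0 := fun h0 => by rw [h0, map_zero] at hx; exact ht0.ne hx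
    have := Qeq _ _ _ (ho x h0) ⟨1, 1, one_pos, by simp [hx], rfl⟩
    exact (hν x h0).trans (by rw [this]; simp)

end Ex

theorem exists_plc {k Ω : Type} [Field k] [IsAlgClosed k] [Field Ω] [Algebra k Ω] {τ : Ω}
    (hτ : Transcendental k τ⁻¹) (halg : Algebra.IsAlgebraic (adjoin k {τ}) Ω) :
    ∃ P : Plc k Ω, P.ord τ = 1 := by
  obtain ⟨V, hV, hxV⟩ := Subring.exists_le_valuationSubring_of_isIntegrallyClosedIn
    (x := τ⁻¹) (R := (integralClosure k Ω).toSubring) (fun h => hτ (IsIntegral.isAlgebraic h))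
  have hv : ∀ c : k, V.valuation (algebraMap k Ω c) ≤ 1 := fun c =>
    (V.valuation_le_one_iff _).2 (hV ((integralClosure k Ω).algebraMap_mem c))
  have h0 : τ ≠ 0 := fun h => hxV (by simp [h])
  have h1 : V.valuation τ < 1 := by
    have : 1 < V.valuation τ⁻¹ := not_le.1 fun h => hxV ((V.valuation_le_one_iff _).1 h)
    rwa [map_inv₀, one_lt_inv₀ (V.valuation.pos_iff.2 h0)] at this
  obtain ⟨ν, h2, h3⟩ := exists_real (V.valuation.pos_iff.2 h0) h1
    fun x hx => v_pow hv h1 (halg.isAlgebraic x) hx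
  have h4 : ∀ x, ν x ≤ 1 ↔ V.valuation x ≤ 1 := fun x => by simpa using h2 x 1
  refine ⟨⟨ν, fun c => (h4 _).2 (hv c), fun x hx => ?_⟩, by simp [Plc.ord, h3 τ rfl]⟩
  obtain ⟨c, hc⟩ := v_res_alg hv h1 (halg.isAlgebraic x) ((h4 x).1 hx)
  exact ⟨c, not_le.1 fun h => not_le.2 hc (by simpa using (h2 1 _).1 (by simpa using h))⟩

theorem plcEx : PlcExStmt := by
  intro k Ω _ _ _ _ _ _ b hb halg
  have h1 : ∃ P : Plc k Ω, P.ord b⁻¹ = 1 := exists_plc (by rwa [inv_inv])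
    (isAlgebraic_mono (Set.singleton_subset_iff.2 (by
      simpa using inv_mem (mem_adjoin_simple_self k b⁻¹))) halg)
  have h2 : ∀ β : k, ∃ P : Plc k Ω, P.ord (b - algebraMap k Ω β) = 1 := fun β => exists_plc
    (fun h => hb (by simpa using (IsAlgebraic.inv_iff.1 h).add (isAlgebraic_algebraMap β)))
    (isAlgebraic_mono (Set.singleton_subset_iff.2 (by
      simpa using add_mem (mem_adjoin_simple_self k (b - algebraMap k Ω β))
        (IntermediateField.algebraMap_mem _ β))) halg)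
  obtain ⟨P₀, h1⟩ := h1
  choose P h2 using h2
  exact ⟨fun o => o.elim P₀ P, by rw [Plc.ord_inv] at h1; simpa using neg_eq_iff_eq_neg.1 h1, h2⟩

end Pool.Agent.MP_09973c_nt.H56
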