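import Pool.Agent.MP_09973c_nt.H58.SpecF

/-!
Orders of rational functions, the product formula, Hensel's lemma, transfer of trees.
-/

set_option autoImplicit false

namespace Pool.Agent.MP_09973c_nt.H56

open Polynomial Finset IntermediateField Pool.Agent.MP_09973c_nt.H31 Pool.Agent.MP_09973c_nt.H58

section PF

variable {k Ω : Type} [Field k] [Field Ω] [Algebra k Ω]

theorem ord_fin (P : Plc k Ω) {b : Ω} {β : k} (h : P.ord (b - algebraMap k Ω β) = 1) {f : k[X]}
    (hf : f ≠ 0) : aeval b f ≠ 0 ∧ P.ord (aeval b f) = f.rootMultiplicity β := by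
  obtain ⟨g, hg, hd⟩ := exists_eq_pow_rootMultiplicity_mul_and_not_dvd f hf β
  have h1 : P.ν (aeval b g) = 1 :=
    ((Plc.red_of_ord (by rw [h]; exact one_pos)).aeval g).eq_one fun h0 => hd (dvd_iff_isRoot.2 h0)
  have h2 : aeval b g ≠ 0 := fun h0 => by simp [h0] at h1
  have h3 : b - algebraMap k Ω β ≠ 0 := P.ne_zero_of_ord (by rw [h]; exact one_ne_zero)
  have h4 : aeval b f = (b - algebraMap k Ω β) ^ f.rootMultiplicity β * aeval b g := by
    conv_lhs => rw [hg]
    simp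
  rw [h4]
  exact ⟨mul_ne_zero (pow_ne_zero _ h3) h2, by
    rw [P.ord_mul (pow_ne_zero _ h3) h2, P.ord_pow, h, P.ord_eq_zero h1]; ring⟩

theorem ord_inf (P : Plc k Ω) {b : Ω} (h : P.ord b = -1) {f : k[X]} (hf : f ≠ 0) :
    aeval b f ≠ 0 ∧ P.ord (aeval b f) = -f.natDegree := by
  have h1 : 1 < P.ν b := P.ord_neg_iff.1 (by rw [h]; norm_num)
  have h0 : b ≠ 0 := P.ne_zero_of_ord (by rw [h]; norm_num)
  have h2 : P.ν (f.coeff f.natDegree • b ^ f.natDegree) = P.ν (b ^ f.natDegree) := by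
    rw [Algebra.smul_def, map_mul, coeff_natDegree, P.ν_const (leadingCoeff_ne_zero.2 hf), one_mul]
  have h3 : P.ν (aeval b f) = P.ν (b ^ f.natDegree) := by
    rw [aeval_eq_sum_range, P.ν.map_sum_eq_of_lt (j := f.natDegree) (self_mem_range_succ _), h2]
    intro i hi
    have hi' : i < f.natDegree := by
      simp only [mem_sdiff, mem_range, mem_singleton] at hi
      omega
    rw [h2, Algebra.smul_def, map_mul, map_pow, map_pow]
    exact (mul_le_of_le_one_left' (P.triv _)).trans_lt (pow_lt_pow_right₀ h1 hi')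
  refine ⟨fun h4 => ?_, by rw [P.ord_congr h3, P.ord_pow, h]; ring⟩
  rw [h4, map_zero] at h3
  exact pow_ne_zero _ h0 (P.ν.zero_iff.1 h3.symm)

theorem ord_div (P : Plc k Ω) {x y : Ω} (hx : x ≠ 0) (hy : y ≠ 0) :
    P.ord (x / y) = P.ord x - P.ord y := by
  rw [div_eq_mul_inv, P.ord_mul hx (inv_ne_zero hy), P.ord_inv, sub_eq_add_neg]

theorem exists_frac {b x : Ω} (hx : x ∈ adjoin k {b}) (h0 : x ≠ 0) :
    ∃ f g : k[X], f ≠ 0 ∧ g ≠ 0 ∧ x = aeval b f / aeval b g := by
  obtain ⟨f, g, rfl⟩ := (mem_adjoin_simple_iff k x).1 hx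
  obtain ⟨h1, h2⟩ := div_ne_zero_iff.1 h0
  exact ⟨f, g, fun h => h1 (by simp [h]), fun h => h2 (by simp [h]), rfl⟩

theorem vg_of (P : Plc k Ω) {b : Ω} (m : k[X] → ℤ)
    (h : ∀ f : k[X], f ≠ 0 → aeval b f ≠ 0 ∧ P.ord (aeval b f) = m f) : P.VG {b} 1 := by
  intro x hx h0
  obtain ⟨f, g, hf, hg, rfl⟩ := exists_frac hx h0
  exact ⟨m f - m g, by
    rw [ord_div P (h f hf).1 (h g hg).1, (h f hf).2, (h g hg).2]; push_cast; ring⟩

theorem sum_ord [IsAlgClosed k] {b : Ω} {P : Option k → Plc k Ω} (hP : Fam k b P) {f : k[X]}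
    (hf : f ≠ 0) {B : Finset k} (hB : ∀ β ∈ f.roots, β ∈ B) :
    ∑ β ∈ insertNone B, (P β).ord (aeval b f) = 0 := by
  classical
  rw [sum_insertNone, (ord_inf _ hP.1 hf).2,
    sum_congr rfl fun β _ => (ord_fin _ (hP.2 β) hf).2, ← Nat.cast_sum,
    sum_congr rfl fun β _ => (count_roots f).symm, Multiset.sum_count_eq_card hB,
    IsAlgClosed.card_roots_eq_natDegree, neg_add_cancel]

theorem eval_mem {M : Subfield Ω} {f : Polynomial Ω} (hf : ∀ i, f.coeff i ∈ M) {m : Ω}
    (hm : m ∈ M) : f.eval m ∈ M := by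
  rw [eval_eq_sum_range]
  exact sum_mem fun i _ => M.mul_mem (hf i) (M.pow_mem hm i)

theorem hensel (P : Plc k Ω) {S : Set Ω} {g : ℝ} {f : Polynomial Ω} {z : Ω} (hS : P.VG S g)
    (hf : ∀ i, f.coeff i ∈ adjoin k S ∧ P.ν (f.coeff i) ≤ 1) (hz : P.ν z ≤ 1)
    (h0 : f.eval z = 0) (h1 : P.ν (f.derivative.eval z) = 1) : P.VG (insert z S) g := by
  obtain ⟨M, hSM, hM⟩ := hS.maxF
  have hk : ∀ c : k, algebraMap k Ω c ∈ M := fun c => hSM ((adjoin k S).algebraMap_mem c)
  refine Plc.VG.of_maxF hM hk (Set.insert_subset ?_ fun x hx => hSM (subset_adjoin k S hx))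
  obtain ⟨F, rfl⟩ := (mem_lifts f).1 ((lifts_iff_coeff_lifts (f := P.ν.integer.subtype) f).2
    fun n => ⟨⟨_, (hf n).2⟩, rfl⟩)
  have hev : ∀ (G : Polynomial P.ν.integer) (x : P.ν.integer),
      (G.map P.ν.integer.subtype).eval (x : Ω) = (G.eval x : P.ν.integer) := fun G x =>
    eval_map_apply (p := G) P.ν.integer.subtype x
  obtain ⟨c, h⟩ := P.res z hz
  refine hM.mem_of_limit hz h fun n => ?_
  have : ∀ n, ∃ m ∈ M, P.ν (z - m) ≤ P.ν (z - algebraMap k Ω c) ^ (n + 1) := by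
    intro n
    induction n with
    | zero => exact ⟨_, hk c, by simp⟩
    | succ n ih =>
      obtain ⟨m, hm, hzm⟩ := ih
      have hle : P.ν (z - m) ≤ P.ν (z - algebraMap k Ω c) :=
        hzm.trans (pow_le_of_le_one zero_le h.le (by omega))
      have hm1 : P.ν m ≤ 1 := by
        rw [← sub_sub_cancel z m]
        exact P.ν.map_sub_le hz (hle.trans h.le)
      obtain ⟨κ, he⟩ := binomExpansion F ⟨m, hm1⟩ (⟨z, hz⟩ - ⟨m, hm1⟩)
      obtain ⟨κ', he'⟩ := evalSubFactor F.derivative ⟨z, hz⟩ ⟨m, hm1⟩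
      rw [add_sub_cancel] at he
      have e1 := congrArg Subtype.val he
      have e2 := congrArg Subtype.val he'
      push_cast at e1 e2
      rw [← hev, ← hev, ← hev, ← derivative_map] at e1
      rw [← hev, ← hev, ← derivative_map] at e2
      set f := F.map P.ν.integer.subtype
      have h2 : P.ν (f.derivative.eval m) = 1 := val_eq_one_of_close P.ν h1 (by
        rw [e2, map_mul]
        exact (mul_le_of_le_one_left' κ'.2).trans_lt (hle.trans_lt h))
      have h3 : f.derivative.eval m ≠ 0 := fun h4 => by simp [h4] at h2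
      have hfM : ∀ i, f.coeff i ∈ M := fun i => hSM (hf i).1
      refine ⟨m - f.eval m / f.derivative.eval m, M.sub_mem hm (M.div_mem (eval_mem hfM hm)
        (eval_mem (fun i => ?_) hm)), ?_⟩
      · rw [coeff_derivative]
        exact M.mul_mem (hfM _) (M.add_mem (natCast_mem M i) M.one_mem)
      · have h4 : z - (m - f.eval m / f.derivative.eval m)
            = -((κ : Ω) * (z - m) ^ 2) / f.derivative.eval m := by
          rw [eq_div_iff h3, sub_mul, sub_mul, div_mul_cancel₀ _ h3]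
          rw [h0] at e1
          linear_combination -e1
        rw [h4, map_div₀, h2, div_one, P.ν.map_neg, map_mul, map_pow, pow_succ _ (n + 1), pow_two]
        exact (mul_le_of_le_one_left' κ.2).trans (mul_le_mul' hzm hle)
  obtain ⟨m, hm, h1⟩ := this n
  exact ⟨m, hm, h1.trans (pow_le_pow_of_le_one zero_le h.le (by omega))⟩

end PF

theorem pf : PFStmt := by
  intro k Ω _ _ _ _ _ _
  refine ⟨fun P b β h => ⟨vg_of P (fun f => f.rootMultiplicity β) fun f hf => ?_,
    fun f hf => (ord_fin P h hf).2⟩, fun P b h => ⟨vg_of P (fun f => -f.natDegree) fun f hf => ?_,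
    fun f hf => (ord_inf P h hf).2⟩, fun b P hP hb S n γ hγ x hx hS B => ?_,
    fun P S g f z h1 h2 h3 h4 h5 => hensel P h1 h2 h3 h4 h5⟩
  · simpa using ord_fin P h hf
  · simpa using ord_inf P h hf
  · classical
    have h0 : ∀ i ∈ univ, γ i x ≠ 0 := fun i _ => by simpa using hx
    obtain ⟨f, g, hf, hg, he⟩ := exists_frac (hγ.prod_mem hb hS) (prod_ne_zero_iff.2 h0)
    refine ⟨insertNone (eraseNone B ∪ f.roots.toFinset ∪ g.roots.toFinset), fun β hβ => ?_, ?_⟩
    · cases β with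
      | none => exact none_mem_insertNone
      | some β => simp [hβ]
    · rw [sum_congr rfl fun β _ => ((P β).ord_prod univ (fun i => γ i x) h0).symm, he,
        sum_congr rfl fun β _ => ord_div (P β) (ord_inf _ hP.1 hf).1 (ord_inf _ hP.1 hg).1,
        sum_sub_distrib, sum_ord hP hf fun β hβ => by simp [hβ, -mem_roots'],
        sum_ord hP hg fun β hβ => by simp [hβ, -mem_roots'], sub_zero]

theorem mt : MTStmt := by
  intro k k' _ _ _ φ r s c C ρ Pm J hs ⟨ζ, rt, h1, h2, h3⟩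
  classical
  have hex : ∀ y : k', ∃ z, z ^ s = y ∧ ∀ x, y = φ x → z = φ (rt x) := fun y => by
    by_cases hy : ∃ x, y = φ x
    · obtain ⟨x, rfl⟩ := hy
      exact ⟨φ (rt x), by rw [← map_pow, h2], fun x' hx => by rw [φ.injective hx]⟩
    · obtain ⟨z, hz⟩ := IsAlgClosed.exists_pow_nat_eq y hs
      exact ⟨z, hz, fun x hx => absurd ⟨x, hx⟩ hy⟩
  choose rt' hr1 hr2 using hex
  have hp : ∀ dg d, pth r (φ c) (φ ζ) rt' dg d = φ (pth r c ζ rt dg d) := fun dg d => by
    induction d with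
    | zero => simp [pth]
    | succ d ih => rw [pth, pth, ih, ← map_pow φ _ r, ← map_sub, hr2 _ _ rfl, map_mul, map_pow]
  refine ⟨φ ζ, rt', h1.map_of_injective φ.injective, hr1, fun i hi => ⟨?_, fun h => ?_⟩⟩
  · simpa only [hp, ne_eq, map_eq_zero] using (h3 i hi).1
  · obtain ⟨G, g1, g2, g3⟩ := (h3 i hi).2 h
    refine ⟨G, g1, fun β => ?_, fun ω hω d a1 a2 a3 => ?_⟩
    · by_cases hβ : ∃ x, φ x = β
      · obtain ⟨x, rfl⟩ := hβ
        simpa only [hp, φ.injective.eq_iff] using g2 x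
      · rw [filter_false_of_mem fun ω _ h => hβ ⟨_, (hp _ _).symm.trans h⟩, card_empty]
        exact Nat.zero_le _
    · rw [hp]
      exact (map_ne_zero φ).2 (g3 ω hω d a1 a2 a3)

end Pool.Agent.MP_09973c_nt.H56
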